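import Pool.Agent.ASD.Stmts3
import Pool.Agent.Helper85_AT3.LSB

/-!
# Squad ASD, row LBD: the local block of `W` has the defect group `V`; its inertial index
-/

open scoped BigOperators

noncomputable section

namespace Pool.Agent.PP.SD.H25

open Pool.Agent.Helper51_AWC Pool.Agent.Helper79_WRA Pool.Agent.PP Pool.Agent.PP.KF
open Pool.Agent.PP.K9 Pool.Agent.PP.K9.H97 Pool.Agent.PP.H75 Pool.Agent.PP.T3
open Pool.Agent.PP.T3.H85 Pool.Agent.PP.SO Pool.Agent.PP.SD

attribute [local instance] Ideal.Quotient.field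

/-- the index of the centraliser of `V` in a group which acts on `V₀`. -/
theorem relIndex_act {V₀ G : Type} [CommGroup V₀] [Group G] (i : V₀ →* G)
    (hi : Function.Injective i) (T C : Subgroup G) (E₀ S : Subgroup (MulAut V₀))
    (hS : S ≤ E₀)
    (act : ∀ t ∈ T, ∃ σ ∈ E₀, ∀ v, t * i v * t⁻¹ = i (σ v))
    (sur : ∀ σ ∈ E₀, ∃ t ∈ T, ∀ v, t * i v * t⁻¹ = i (σ v))
    (hC : ∀ t ∈ T, ∀ σ ∈ E₀, (∀ v, t * i v * t⁻¹ = i (σ v)) → (t ∈ C ↔ σ ∈ S)) :
    (Subgroup.centralizer (i.range : Set G)).relIndex (T ⊓ C) = Nat.card S := by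
  have hch : ∀ t : (T ⊓ C : Subgroup G), ∃ σ : MulAut V₀, σ ∈ E₀ ∧
      ∀ v, (t : G) * i v * (t : G)⁻¹ = i (σ v) := fun t => by
    obtain ⟨σ, h1, h2⟩ := act t t.2.1
    exact ⟨σ, h1, h2⟩
  choose f hfE hf using hch
  let φ : (T ⊓ C : Subgroup G) →* MulAut V₀ := MonoidHom.mk' f (by
    intro a b
    apply MulEquiv.ext
    intro v
    apply hi
    rw [MulAut.mul_apply, ← hf (a * b) v, ← hf a, ← hf b v]
    push_cast
    group)
  have hker : φ.ker = (Subgroup.centralizer (i.range : Set G)).subgroupOf (T ⊓ C) := by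
    ext t
    rw [MonoidHom.mem_ker, Subgroup.mem_subgroupOf, Subgroup.mem_centralizer_iff]
    constructor
    · intro h
      rintro _ ⟨v, rfl⟩
      have h1 := hf t v
      have h2 : f t = 1 := h
      rw [h2, MulAut.one_apply] at h1
      calc i v * (t : G) = (t : G) * i v * (t : G)⁻¹ * t := by rw [h1]
        _ = (t : G) * i v := by group
    · intro h
      change f t = 1
      apply MulEquiv.ext
      intro v
      apply hi
      rw [← hf t v, MulAut.one_apply, ← h (i v) ⟨v, rfl⟩, mul_inv_cancel_right]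
  have hrange : φ.range = S := by
    ext σ
    constructor
    · rintro ⟨t, rfl⟩
      exact (hC t t.2.1 (f t) (hfE t) (hf t)).1 t.2.2
    · intro hσ
      obtain ⟨t, ht, h1⟩ := sur σ (hS hσ)
      have htC : t ∈ C := (hC t ht σ (hS hσ) h1).2 hσ
      refine ⟨⟨t, ht, htC⟩, ?_⟩
      change f ⟨t, ht, htC⟩ = σ
      apply MulEquiv.ext
      intro v
      apply hi
      rw [← hf ⟨t, ht, htC⟩ v, ← h1 v]
  rw [Subgroup.relIndex, ← hker, Subgroup.index_ker, hrange]

/-- LBD -/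
theorem lbd : LbdStmt := by
  intro ℓ _ M _ hM V₀ G _ _ _ _ E₀ hFr B hB W
  have hF : GoodF ℓ (FF M) := H50.fld ℓ Fact.out M hM
  have hL := hB.ld
  have hLc := hB.lb W
  have hVX : B.i.range ≤ B.C W := by
    rintro _ ⟨v, rfl⟩
    refine Subgroup.mem_centralizer_iff.2 ?_
    rintro _ ⟨w, _, rfl⟩
    rw [← map_mul, ← map_mul, mul_comm]
  have hCX : Subgroup.centralizer (B.i.range : Set G) ≤ B.C W := by
    refine Subgroup.centralizer_le ?_
    rintro _ ⟨w, _, rfl⟩
    exact ⟨w, rfl⟩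
  have heC : IsCl (fun t : B.C W => B.e t) := fun x y => hL.blk.1.1 x y
  have hVcard : Nat.card (B.i.range.subgroupOf (B.C W)) = Nat.card B.i.range :=
    Nat.card_congr (Subgroup.subgroupOfEquivOfLe hVX).toEquiv
  have hVp : IsPGroup ℓ (B.i.range.subgroupOf (B.C W)) :=
    hL.tp.pg.of_equiv (Subgroup.subgroupOfEquivOfLe hVX).symm
  have hTb : Tp ℓ (fun t : B.C W => B.b W t) (B.i.range.subgroupOf (B.C W)) := by
    refine ⟨hVp, gd_of_gam hVX hCX hL.gam hLc.gam, ?_⟩
    intro Q hQ hQb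
    have h1 := gd_map (gd_of_mul hF heC hLc.blk.blk.1.1 hLc.und hQ hQb)
    have hcard : Nat.card (Q.map (B.C W).subtype) = Nat.card Q :=
      (Nat.card_congr (Q.equivMapOfInjective (B.C W).subtype
        (B.C W).subtype_injective).toEquiv).symm
    have h2 := hL.tp.mx _ (hQ.map (B.C W).subtype) h1
    rw [hcard] at h2
    rw [hVcard]
    exact h2
  have hix : ix (B.i.range.subgroupOf (B.C W)) (fun t : B.C W => B.g t) =
      Nat.card (St E₀ W) := by
    rw [ix_eq hVX hCX hL.gam.supp]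
    refine relIndex_act B.i hB.inj (Tg B.i.range B.g) (B.C W) E₀ (St E₀ W)
      (fun σ hσ => hσ.1) hB.act hB.sur ?_
    intro t _ σ hσ h1
    constructor
    · intro htC
      refine ⟨hσ, fun w hw => ?_⟩
      have hcw : B.i w * t = t * B.i w :=
        Subgroup.mem_centralizer_iff.1 htC (B.i w) ⟨w, hw, rfl⟩
      apply hB.inj
      rw [← h1 w, ← hcw, mul_inv_cancel_right]
    · intro hσW
      refine Subgroup.mem_centralizer_iff.2 ?_
      rintro _ ⟨w, hw, rfl⟩
      have h2 := h1 w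
      rw [hσW.2 w hw] at h2
      calc B.i w * t = t * B.i w * t⁻¹ * t := by rw [h2]
        _ = t * B.i w := by group
  refine ⟨ld_of hVX hCX hL.ab hLc.blk.blk hL.gam hLc.gam hTb, hix, fun hRw => ?_⟩
  rw [hix]
  have hbot : St E₀ W = ⊥ := by
    rw [eq_bot_iff]
    intro σ hσ
    exact Subgroup.mem_bot.2 (hRw.2 σ hσ.1 hσ.2)
  rw [hbot]
  exact Subgroup.card_bot

end Pool.Agent.PP.SD.H25
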